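import Mathlib

set_option autoImplicit false
open Classical

/-!
Average size of an independent set (hard-core model) versus independence number.
-/

namespace Pool.Agent.ISR

/-- The independent sets of `G` (the empty set included). -/
noncomputable def ind {V : Type} [Fintype V] (G : SimpleGraph V) : Finset (Finset V) :=
  Finset.univ.filter (fun s : Finset V => G.IsIndepSet (↑s : Set V))

/-- The partition function `Z_G(lam)` of the hard-core model. -/
noncomputable def Z {V : Type} [Fintype V] (G : SimpleGraph V) (lam : ℝ) : ℝ :=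
  ∑ s ∈ ind G, lam ^ s.card

/-- The expected size of the random independent set at fugacity `lam`. -/
noncomputable def meanSize {V : Type} [Fintype V] (G : SimpleGraph V) (lam : ℝ) : ℝ :=
  ∑ s ∈ ind G, (lam ^ s.card / Z G lam) * (s.card : ℝ)

/-- The occupancy fraction `α_G(lam)`. -/
noncomputable def occ {V : Type} [Fintype V] (G : SimpleGraph V) (lam : ℝ) : ℝ :=
  meanSize G lam / (Fintype.card V : ℝ)

/-- The ratio `α(G) / (α_G(lam) |V(G)|)`. -/
noncomputable def ratio {V : Type} [Fintype V] (G : SimpleGraph V) (lam : ℝ) : ℝ :=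
  (G.indepNum : ℝ) / (occ G lam * (Fintype.card V : ℝ))

/-- Numerator of the expectation. -/
noncomputable def S {V : Type} [Fintype V] (G : SimpleGraph V) (lam : ℝ) : ℝ :=
  ∑ s ∈ ind G, (s.card : ℝ) * lam ^ s.card

section basic

variable {V : Type} [Fintype V] (G : SimpleGraph V) (lam : ℝ)

theorem mem_ind {G : SimpleGraph V} {s : Finset V} :
    s ∈ ind G ↔ G.IsIndepSet (↑s : Set V) := by
  simp [ind]

theorem empty_mem_ind : (∅ : Finset V) ∈ ind G := by
  rw [mem_ind]; simp

theorem singleton_mem_ind (v : V) : ({v} : Finset V) ∈ ind G := by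
  rw [mem_ind]; simp

theorem Z_pos {lam : ℝ} (hl : 0 < lam) : 0 < Z G lam := by
  unfold Z
  exact Finset.sum_pos (fun s _ => pow_pos hl _) ⟨∅, empty_mem_ind G⟩

theorem S_pos [Nonempty V] {lam : ℝ} (hl : 0 < lam) : 0 < S G lam := by
  obtain ⟨v⟩ := ‹Nonempty V›
  unfold S
  refine Finset.sum_pos' (fun s _ => by positivity) ⟨{v}, singleton_mem_ind G v, ?_⟩
  simpa using hl

theorem meanSize_eq : meanSize G lam = S G lam / Z G lam := by
  unfold meanSize S
  rw [Finset.sum_div]
  refine Finset.sum_congr rfl fun s _ => ?_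
  ring

theorem ratio_eq [Nonempty V] : ratio G lam = (G.indepNum : ℝ) * Z G lam / S G lam := by
  unfold ratio occ
  have h : (Fintype.card V : ℝ) ≠ 0 := by
    have := Fintype.card_pos (α := V)
    positivity
  rw [div_mul_cancel₀ _ h, meanSize_eq, div_div_eq_mul_div]

end basic

section construction

variable {W : Type} [Fintype W] (H : SimpleGraph W) (N D : ℕ)

/-- Adjacency: `N` disjoint copies of `H`, and for each vertex `w` of `H` a class of `D` hubs
joined to all copies of `w`. -/
def adj : (Fin N × W) ⊕ (Fin D × W) → (Fin N × W) ⊕ (Fin D × W) → Prop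
  | Sum.inl x, Sum.inl y => x.1 = y.1 ∧ H.Adj x.2 y.2
  | Sum.inl x, Sum.inr y => x.2 = y.2
  | Sum.inr x, Sum.inl y => x.2 = y.2
  | Sum.inr _, Sum.inr _ => False

/-- The graph. -/
def gr : SimpleGraph ((Fin N × W) ⊕ (Fin D × W)) where
  Adj := adj H N D
  symm := ⟨by
    rintro (x | x) (y | y) h
    · exact ⟨h.1.symm, h.2.symm⟩
    · exact Eq.symm h
    · exact Eq.symm h
    · exact h⟩
  loopless := ⟨by
    rintro (x | x) h
    · exact H.loopless.irrefl _ h.2
    · exact h⟩

theorem cliqueFree (hH : H.CliqueFree 3) : (gr H N D).CliqueFree 3 := by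
  intro t ht
  rw [SimpleGraph.is3Clique_iff] at ht
  obtain ⟨a, b, c, hab, hac, hbc, -⟩ := ht
  rcases a with a | a <;> rcases b with b | b <;> rcases c with c | c
  · refine hH {a.2, b.2, c.2} ?_
    rw [SimpleGraph.is3Clique_iff]
    exact ⟨a.2, b.2, c.2, hab.2, hac.2, hbc.2, rfl⟩
  · have h1 : a.2 = c.2 := hac
    have h2 : b.2 = c.2 := hbc
    have h3 := hab.2
    rw [h1, h2] at h3
    exact H.loopless.irrefl _ h3
  · have h1 : a.2 = b.2 := hab
    have h2 : b.2 = c.2 := hbc
    have h3 := hac.2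
    rw [h1, h2] at h3
    exact H.loopless.irrefl _ h3
  · exact hbc
  · have h1 : a.2 = b.2 := hab
    have h2 : a.2 = c.2 := hac
    have h3 := hbc.2
    rw [← h1, ← h2] at h3
    exact H.loopless.irrefl _ h3
  · exact hac
  · exact hab
  · exact hab

theorem minDeg [Nonempty W] (hN : 0 < N) (hD : D ≤ N) : D ≤ (gr H N D).minDegree := by
  obtain ⟨w0⟩ := ‹Nonempty W›
  have : Nonempty ((Fin N × W) ⊕ (Fin D × W)) := ⟨Sum.inl (⟨0, hN⟩, w0)⟩
  apply SimpleGraph.le_minDegree_of_forall_le_degree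
  rintro (⟨i, w⟩ | ⟨i, w⟩)
  · have h1 : (Finset.univ.image (fun j : Fin D => (Sum.inr (j, w) : (Fin N × W) ⊕ (Fin D × W)))) ⊆
        (gr H N D).neighborFinset (Sum.inl (i, w)) := by
      intro x hx
      simp only [Finset.mem_image, Finset.mem_univ, true_and] at hx
      obtain ⟨j, rfl⟩ := hx
      rw [SimpleGraph.mem_neighborFinset]
      exact (rfl : w = w)
    have h2 := Finset.card_le_card h1
    rw [Finset.card_image_of_injective _ (by intro x y h; simpa using h)] at h2
    simpa using h2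
  · have h1 : (Finset.univ.image (fun j : Fin N => (Sum.inl (j, w) : (Fin N × W) ⊕ (Fin D × W)))) ⊆
        (gr H N D).neighborFinset (Sum.inr (i, w)) := by
      intro x hx
      simp only [Finset.mem_image, Finset.mem_univ, true_and] at hx
      obtain ⟨j, rfl⟩ := hx
      rw [SimpleGraph.mem_neighborFinset]
      exact (rfl : w = w)
    have h2 := Finset.card_le_card h1
    rw [Finset.card_image_of_injective _ (by intro x y h; simpa using h)] at h2
    have h3 : N ≤ ((gr H N D).neighborFinset (Sum.inr (i, w))).card := by simpa using h2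
    have h4 : D ≤ ((gr H N D).neighborFinset (Sum.inr (i, w))).card := hD.trans h3
    simpa using h4

/-- The set of vertices coded by `f` and `U`. -/
noncomputable def Phi (p : (Fin N → Finset W) × Finset (Fin D × W)) :
    Finset ((Fin N × W) ⊕ (Fin D × W)) :=
  (Finset.univ.filter (fun x : Fin N × W => x.2 ∈ p.1 x.1)).disjSum p.2

variable {N D}

theorem mem_Phi_inl {p : (Fin N → Finset W) × Finset (Fin D × W)} {x : Fin N × W} :
    (Sum.inl x : (Fin N × W) ⊕ (Fin D × W)) ∈ Phi N D p ↔ x.2 ∈ p.1 x.1 := by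
  simp [Phi]

theorem mem_Phi_inr {p : (Fin N → Finset W) × Finset (Fin D × W)} {x : Fin D × W} :
    (Sum.inr x : (Fin N × W) ⊕ (Fin D × W)) ∈ Phi N D p ↔ x ∈ p.2 := by
  simp [Phi]

theorem Phi_injective : Function.Injective (Phi N D (W := W)) := by
  rintro ⟨f, U⟩ ⟨g, U'⟩ h
  refine Prod.ext ?_ ?_
  · funext i
    ext w
    have h1 := mem_Phi_inl (p := (f, U)) (x := (i, w))
    have h2 := mem_Phi_inl (p := (g, U')) (x := (i, w))
    rw [h] at h1
    exact h1.symm.trans h2
  · ext u
    have h1 := mem_Phi_inr (p := (f, U)) (x := u)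
    have h2 := mem_Phi_inr (p := (g, U')) (x := u)
    rw [h] at h1
    exact h1.symm.trans h2

theorem card_Phi (p : (Fin N → Finset W) × Finset (Fin D × W)) :
    (Phi N D p).card = (∑ i, (p.1 i).card) + p.2.card := by
  unfold Phi
  rw [Finset.card_disjSum]
  congr 1
  have h : (Finset.univ.filter (fun x : Fin N × W => x.2 ∈ p.1 x.1)) =
      (Finset.univ.sigma (fun i => p.1 i)).image (fun x : (Σ _ : Fin N, W) => (x.1, x.2)) := by
    ext ⟨i, w⟩
    simp
  rw [h, Finset.card_image_of_injective, Finset.card_sigma]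
  rintro ⟨i, w⟩ ⟨j, w'⟩ h
  simp only [Prod.mk.injEq] at h
  obtain ⟨rfl, rfl⟩ := h
  rfl

/-- The code of a set of vertices. -/
noncomputable def code (s : Finset ((Fin N × W) ⊕ (Fin D × W))) :
    (Fin N → Finset W) × Finset (Fin D × W) :=
  (fun i => Finset.univ.filter (fun w => (Sum.inl (i, w) : (Fin N × W) ⊕ (Fin D × W)) ∈ s),
    Finset.univ.filter (fun u => (Sum.inr u : (Fin N × W) ⊕ (Fin D × W)) ∈ s))

theorem Phi_code (s : Finset ((Fin N × W) ⊕ (Fin D × W))) : Phi N D (code s) = s := by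
  ext (x | x)
  · rw [mem_Phi_inl]; simp [code]
  · rw [mem_Phi_inr]; simp [code]

theorem Phi_indep_inl {p : (Fin N → Finset W) × Finset (Fin D × W)}
    (h : (gr H N D).IsIndepSet (↑(Phi N D p) : Set _)) (i : Fin N) :
    p.1 i ∈ ind H := by
  rw [mem_ind]
  intro x hx y hy hne hadj
  refine h (x := Sum.inl (i, x)) (Finset.mem_coe.2 (mem_Phi_inl.2 hx)) (y := Sum.inl (i, y))
    (Finset.mem_coe.2 (mem_Phi_inl.2 hy)) (by simpa using hne) ?_
  exact ⟨rfl, hadj⟩

theorem Phi_indep_inr {p : (Fin N → Finset W) × Finset (Fin D × W)}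
    (h : (gr H N D).IsIndepSet (↑(Phi N D p) : Set _)) {u : Fin D × W} (hu : u ∈ p.2) (i : Fin N) :
    u.2 ∉ p.1 i := by
  intro hx
  exact h (x := Sum.inl (i, u.2)) (Finset.mem_coe.2 (mem_Phi_inl.2 hx)) (y := Sum.inr u)
    (Finset.mem_coe.2 (mem_Phi_inr.2 hu)) (by simp) rfl

theorem Phi_indep_of {f : Fin N → Finset W} (hf : ∀ i, f i ∈ ind H) :
    (gr H N D).IsIndepSet (↑(Phi N D (f, ∅)) : Set _) := by
  rintro (x | x) hx (y | y) hy hne hadj
  · have h1 := mem_Phi_inl.1 (Finset.mem_coe.1 hx)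
    have h2 := mem_Phi_inl.1 (Finset.mem_coe.1 hy)
    obtain ⟨h3, h4⟩ := hadj
    have h5 := mem_ind.1 (hf x.1)
    simp only at h1 h2
    rw [← h3] at h2
    refine h5 (Finset.mem_coe.2 h1) (Finset.mem_coe.2 h2) ?_ h4
    exact H.ne_of_adj h4
  · exact absurd (mem_Phi_inr.1 (Finset.mem_coe.1 hy)) (by simp)
  · exact absurd (mem_Phi_inr.1 (Finset.mem_coe.1 hx)) (by simp)
  · exact hadj

theorem indepNum_le :
    (gr H N D).indepNum ≤ N * H.indepNum + D * Fintype.card W := by
  obtain ⟨s, hs⟩ := (gr H N D).exists_isNIndepSet_indepNum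
  rw [← hs.card_eq, ← Phi_code s, card_Phi]
  have h0 := hs.isIndepSet
  rw [← Phi_code s] at h0
  refine add_le_add ?_ ?_
  · calc ∑ i, ((code s).1 i).card ≤ ∑ _i : Fin N, H.indepNum := by
          refine Finset.sum_le_sum fun i _ => ?_
          exact (mem_ind.1 (Phi_indep_inl H h0 i)).card_le_indepNum
      _ = N * H.indepNum := by simp
  · refine (Finset.card_le_univ _).trans ?_
    simp

end construction

end Pool.Agent.ISR
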