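import Pool.Agent.ISR.Basic

set_option autoImplicit false
open Classical

namespace Pool.Agent.ISR

section count

variable {W : Type} [Fintype W] (H : SimpleGraph W) {N D : ℕ}

/-- Power sums over functions. -/
theorem sum_pi (F : Finset (Finset W)) (lam : ℝ) :
    ∑ f ∈ Fintype.piFinset (fun _ : Fin N => F), lam ^ (∑ i, (f i).card) =
      (∑ I ∈ F, lam ^ I.card) ^ N := by
  have h := Finset.prod_univ_sum (fun _ : Fin N => F) (fun _ (I : Finset W) => lam ^ I.card)
  rw [Finset.prod_const, Finset.card_univ, Fintype.card_fin] at h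
  rw [h]
  refine Finset.sum_congr rfl fun f _ => ?_
  rw [Finset.prod_pow_eq_pow_sum]

theorem sum_pi_card (F : Finset (Finset W)) (lam : ℝ) :
    ∑ f ∈ Fintype.piFinset (fun _ : Fin N => F),
        ((∑ i, (f i).card : ℕ) : ℝ) * lam ^ (∑ i, (f i).card) =
      N * (∑ I ∈ F, (I.card : ℝ) * lam ^ I.card) * (∑ I ∈ F, lam ^ I.card) ^ (N - 1) := by
  have h1 : ∀ f : Fin N → Finset W,
      ((∑ i, (f i).card : ℕ) : ℝ) * lam ^ (∑ i, (f i).card) =
        ∑ i, ((f i).card : ℝ) * lam ^ (∑ j, (f j).card) := by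
    intro f
    push_cast
    rw [Finset.sum_mul]
  simp only [h1]
  rw [Finset.sum_comm]
  have h2 : ∀ i : Fin N, ∑ f ∈ Fintype.piFinset (fun _ : Fin N => F),
      ((f i).card : ℝ) * lam ^ (∑ j, (f j).card) =
      (∑ I ∈ F, (I.card : ℝ) * lam ^ I.card) * (∑ I ∈ F, lam ^ I.card) ^ (N - 1) := by
    intro i
    have h := Finset.prod_univ_sum (fun _ : Fin N => F)
      (fun j (I : Finset W) => (if j = i then (I.card : ℝ) else 1) * lam ^ I.card)
    have h3 : ∏ j : Fin N, ∑ I ∈ F, (if j = i then (I.card : ℝ) else 1) * lam ^ I.card =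
        (∑ I ∈ F, (I.card : ℝ) * lam ^ I.card) * (∑ I ∈ F, lam ^ I.card) ^ (N - 1) := by
      rw [← Finset.mul_prod_erase Finset.univ _ (Finset.mem_univ i)]
      congr 1
      · simp
      · have h4 : ∏ j ∈ Finset.univ.erase i,
            ∑ I ∈ F, (if j = i then (I.card : ℝ) else 1) * lam ^ I.card =
            ∏ j ∈ (Finset.univ : Finset (Fin N)).erase i, ∑ I ∈ F, lam ^ I.card := by
          refine Finset.prod_congr rfl fun j hj => ?_
          refine Finset.sum_congr rfl fun I _ => ?_
          rw [if_neg (Finset.ne_of_mem_erase hj), one_mul]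
        rw [h4, Finset.prod_const, Finset.card_erase_of_mem (Finset.mem_univ i), Finset.card_univ,
          Fintype.card_fin]
    rw [← h3, h]
    refine Finset.sum_congr rfl fun f _ => ?_
    rw [Finset.prod_mul_distrib, Finset.prod_pow_eq_pow_sum]
    congr 1
    simp
  simp only [h2]
  rw [Finset.sum_const, Finset.card_univ, Fintype.card_fin, nsmul_eq_mul]
  ring

theorem S_ge {lam : ℝ} (hl : 0 < lam) :
    N * S H lam * Z H lam ^ (N - 1) ≤ S (gr H N D) lam := by
  have h := sum_pi_card (N := N) (ind H) lam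
  unfold S Z
  rw [← h]
  have hinj : Set.InjOn (fun f : Fin N → Finset W => Phi N D (f, ∅))
      (↑(Fintype.piFinset (fun _ : Fin N => ind H)) : Set (Fin N → Finset W)) := by
    intro f _ g _ hfg
    have := Phi_injective hfg
    simpa using this
  have h2 : ∑ f ∈ Fintype.piFinset (fun _ : Fin N => ind H),
        ((∑ i, (f i).card : ℕ) : ℝ) * lam ^ (∑ i, (f i).card) =
      ∑ s ∈ (Fintype.piFinset (fun _ : Fin N => ind H)).image (fun f => Phi N D (f, ∅)),
        (s.card : ℝ) * lam ^ s.card := by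
    rw [Finset.sum_image hinj]
    refine Finset.sum_congr rfl fun f _ => ?_
    rw [card_Phi]
    simp
  rw [h2]
  refine Finset.sum_le_sum_of_subset_of_nonneg ?_ (fun s _ _ => by positivity)
  intro s hs
  obtain ⟨f, hf, rfl⟩ := Finset.mem_image.1 hs
  rw [mem_ind]
  exact Phi_indep_of H (fun i => (Fintype.mem_piFinset.1 hf) i)

/-- The independent sets of `H` that avoid `a`. -/
noncomputable def indAvoid (a : W) : Finset (Finset W) :=
  (ind H).filter (fun I => a ∉ I)

theorem sum_indAvoid_le (a : W) {lam : ℝ} (hl : 0 < lam) :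
    ∑ I ∈ indAvoid H a, lam ^ I.card ≤ Z H lam - lam := by
  have h1 : ({a} : Finset W) ∈ ind H := singleton_mem_ind H a
  have h2 : ({a} : Finset W) ∉ indAvoid H a := by simp [indAvoid]
  have h3 : insert ({a} : Finset W) (indAvoid H a) ⊆ ind H := by
    intro I hI
    rcases Finset.mem_insert.1 hI with rfl | hI
    · exact h1
    · exact (Finset.mem_filter.1 hI).1
  have h4 := Finset.sum_le_sum_of_subset_of_nonneg (f := fun I : Finset W => lam ^ I.card) h3
    (fun I _ _ => by positivity)
  rw [Finset.sum_insert h2] at h4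
  simp only [Finset.card_singleton, pow_one] at h4
  unfold Z
  linarith

/-- Constant: total weight of the sets of hubs. -/
noncomputable def K (W : Type) [Fintype W] (D : ℕ) (lam : ℝ) : ℝ :=
  ∑ U : Finset (Fin D × W), lam ^ U.card

theorem sum_indAvoid_nonneg (a : W) {lam : ℝ} (hl : 0 < lam) :
    0 ≤ ∑ I ∈ indAvoid H a, lam ^ I.card :=
  Finset.sum_nonneg fun I _ => by positivity

theorem Z_le [Nonempty W] {lam : ℝ} (hl : 0 < lam) :
    Z (gr H N D) lam ≤ Z H lam ^ N + K W D lam * (Z H lam - lam) ^ N := by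
  obtain ⟨w0⟩ := ‹Nonempty W›
  -- for a set `U` of hubs, the allowed families
  let FF : Finset (Fin D × W) → Finset (Finset W) := fun U =>
    (ind H).filter (fun I => ∀ u ∈ U, u.2 ∉ I)
  let P : Finset ((Fin N → Finset W) × Finset (Fin D × W)) :=
    Finset.univ.filter (fun p => ∀ i, p.1 i ∈ FF p.2)
  have hsub : ind (gr H N D) ⊆ P.image (Phi N D) := by
    intro s hs
    rw [mem_ind] at hs
    rw [← Phi_code s] at hs ⊢
    refine Finset.mem_image_of_mem _ ?_
    simp only [P, FF, Finset.mem_filter, Finset.mem_univ, true_and]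
    intro i
    exact ⟨Phi_indep_inl H hs i, fun u hu => Phi_indep_inr H hs hu i⟩
  have h1 : Z (gr H N D) lam ≤ ∑ s ∈ P.image (Phi N D), lam ^ s.card :=
    Finset.sum_le_sum_of_subset_of_nonneg hsub (fun s _ _ => by positivity)
  rw [Finset.sum_image (fun x _ y _ h => Phi_injective h)] at h1
  have h2 : ∑ p ∈ P, lam ^ (Phi N D p).card =
      ∑ U : Finset (Fin D × W), lam ^ U.card * (∑ I ∈ FF U, lam ^ I.card) ^ N := by
    have e1 : P = (Finset.univ : Finset (Finset (Fin D × W))).biUnion
        (fun U => (Fintype.piFinset (fun _ : Fin N => FF U)).image (fun f => (f, U))) := by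
      ext ⟨f, U⟩
      simp only [P, Finset.mem_filter, Finset.mem_univ, true_and, Finset.mem_biUnion,
        Finset.mem_image, Fintype.mem_piFinset, Prod.mk.injEq]
      constructor
      · intro h
        exact ⟨U, f, h, rfl, rfl⟩
      · rintro ⟨U', f', h, rfl, rfl⟩
        exact h
    rw [e1, Finset.sum_biUnion]
    · refine Finset.sum_congr rfl fun U _ => ?_
      rw [Finset.sum_image (fun f _ g _ h => by simpa using h), ← sum_pi, Finset.mul_sum]
      refine Finset.sum_congr rfl fun f _ => ?_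
      rw [card_Phi, pow_add, mul_comm]
    · intro U _ U' _ hne
      refine Finset.disjoint_left.2 ?_
      rintro p hp hp'
      obtain ⟨f, -, rfl⟩ := Finset.mem_image.1 hp
      obtain ⟨g, -, h⟩ := Finset.mem_image.1 hp'
      exact hne (by simpa using (congrArg Prod.snd h).symm)
  rw [h2] at h1
  refine h1.trans ?_
  have hZ : 0 ≤ Z H lam - lam :=
    (sum_indAvoid_nonneg H w0 hl).trans (sum_indAvoid_le H w0 hl)
  have h3 : ∀ U : Finset (Fin D × W), U ≠ ∅ →
      lam ^ U.card * (∑ I ∈ FF U, lam ^ I.card) ^ N ≤ lam ^ U.card * (Z H lam - lam) ^ N := by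
    intro U hU
    obtain ⟨u, hu⟩ := Finset.nonempty_iff_ne_empty.2 hU
    refine mul_le_mul_of_nonneg_left ?_ (by positivity)
    refine pow_le_pow_left₀ (Finset.sum_nonneg fun I _ => by positivity) ?_ N
    refine le_trans ?_ (sum_indAvoid_le H u.2 hl)
    refine Finset.sum_le_sum_of_subset_of_nonneg ?_ (fun s _ _ => by positivity)
    intro I hI
    have := Finset.mem_filter.1 hI
    exact Finset.mem_filter.2 ⟨this.1, this.2 u hu⟩
  rw [← Finset.add_sum_erase Finset.univ _ (Finset.mem_univ (∅ : Finset (Fin D × W)))]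
  refine add_le_add ?_ ?_
  · have e2 : FF ∅ = ind H := by simp [FF]
    rw [e2]
    simp [Z]
  · unfold K
    rw [Finset.sum_mul]
    calc ∑ U ∈ Finset.univ.erase (∅ : Finset (Fin D × W)),
          lam ^ U.card * (∑ I ∈ FF U, lam ^ I.card) ^ N
        ≤ ∑ U ∈ Finset.univ.erase (∅ : Finset (Fin D × W)),
            lam ^ U.card * (Z H lam - lam) ^ N :=
          Finset.sum_le_sum fun U hU => h3 U (Finset.ne_of_mem_erase hU)
      _ ≤ ∑ U : Finset (Fin D × W), lam ^ U.card * (Z H lam - lam) ^ N := by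
          refine Finset.sum_le_sum_of_subset_of_nonneg (Finset.erase_subset _ _) ?_
          intro U _ _
          positivity

end count

end Pool.Agent.ISR
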