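import Pool.Agent.ISR.Count

set_option autoImplicit false
open Classical

namespace Pool.Agent.ISR

open Filter Topology

theorem ratio_le {W : Type} [Fintype W] [Nonempty W] (H : SimpleGraph W) {N D : ℕ} (hN : 0 < N)
    {lam : ℝ} (hl : 0 < lam) :
    ratio (gr H N D) lam ≤
      (((H.indepNum : ℝ) + (D * Fintype.card W : ℕ) / N) *
        (1 + K W D lam * ((Z H lam - lam) / Z H lam) ^ N)) * (Z H lam / S H lam) := by
  obtain ⟨w0⟩ := ‹Nonempty W›
  have : Nonempty ((Fin N × W) ⊕ (Fin D × W)) := ⟨Sum.inl (⟨0, hN⟩, w0)⟩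
  have : Nonempty W := ⟨w0⟩
  rw [ratio_eq]
  have hZ := Z_pos H hl
  have hS := S_pos H hl
  have hN' : (0 : ℝ) < N := by exact_mod_cast hN
  have h1 := S_ge H (N := N) (D := D) hl
  have h2 := Z_le H (N := N) (D := D) hl
  have h3 : ((gr H N D).indepNum : ℝ) ≤ N * H.indepNum + (D * Fintype.card W : ℕ) := by
    exact_mod_cast indepNum_le H (N := N) (D := D)
  have h4 : (0 : ℝ) < N * S H lam * Z H lam ^ (N - 1) := by positivity
  have hZG := Z_pos (gr H N D) hl
  have hsub : 0 ≤ Z H lam - lam :=
    (sum_indAvoid_nonneg H w0 hl).trans (sum_indAvoid_le H w0 hl)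
  have hK : 0 ≤ K W D lam := Finset.sum_nonneg fun U _ => by positivity
  calc ((gr H N D).indepNum : ℝ) * Z (gr H N D) lam / S (gr H N D) lam
      ≤ ((gr H N D).indepNum : ℝ) * Z (gr H N D) lam / (N * S H lam * Z H lam ^ (N - 1)) := by
        apply div_le_div_of_nonneg_left _ h4 h1
        positivity
    _ ≤ ((N * H.indepNum + (D * Fintype.card W : ℕ)) *
          (Z H lam ^ N + K W D lam * (Z H lam - lam) ^ N)) /
          (N * S H lam * Z H lam ^ (N - 1)) := by
        apply div_le_div_of_nonneg_right _ h4.le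
        apply mul_le_mul h3 h2 hZG.le
        positivity
    _ = _ := by
        obtain ⟨M, rfl⟩ : ∃ M, N = M + 1 := ⟨N - 1, by omega⟩
        have hZ' : Z H lam ≠ 0 := hZ.ne'
        have hS' : S H lam ≠ 0 := hS.ne'
        rw [div_pow]
        have hp : Z H lam ^ (M + 1) ≠ 0 := pow_ne_zero _ hZ'
        rw [show M + 1 - 1 = M from rfl]
        field_simp
        ring

theorem tendsto_bound {W : Type} [Fintype W] [Nonempty W] (H : SimpleGraph W) (D : ℕ)
    {lam : ℝ} (hl : 0 < lam) :
    Tendsto (fun N : ℕ => (((H.indepNum : ℝ) + (D * Fintype.card W : ℕ) / N) *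
        (1 + K W D lam * ((Z H lam - lam) / Z H lam) ^ N)) * (Z H lam / S H lam)) atTop
      (𝓝 (ratio H lam)) := by
  obtain ⟨w0⟩ := ‹Nonempty W›
  have hne : Nonempty W := ⟨w0⟩
  have hZ := Z_pos H hl
  have hsub : 0 ≤ Z H lam - lam :=
    (sum_indAvoid_nonneg H w0 hl).trans (sum_indAvoid_le H w0 hl)
  have h1 : Tendsto (fun N : ℕ => ((D * Fintype.card W : ℕ) : ℝ) / N) atTop (𝓝 0) :=
    tendsto_const_div_atTop_nhds_zero_nat _
  have h2 : Tendsto (fun N : ℕ => ((Z H lam - lam) / Z H lam) ^ N) atTop (𝓝 0) := by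
    apply tendsto_pow_atTop_nhds_zero_of_lt_one
    · positivity
    · rw [div_lt_one hZ]; linarith
  have h3 := ((tendsto_const_nhds (x := (H.indepNum : ℝ))).add h1).mul
    ((tendsto_const_nhds (x := (1 : ℝ))).add ((tendsto_const_nhds (x := K W D lam)).mul h2))
  have h4 := h3.mul_const (Z H lam / S H lam)
  have h5 : ((H.indepNum : ℝ) + 0) * (1 + K W D lam * 0) * (Z H lam / S H lam) = ratio H lam := by
    rw [ratio_eq]; ring
  rw [h5] at h4
  exact h4

/-- The transfer theorem: the ratio of `H` can be approached from above by triangle-free graphs of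
arbitrarily large minimum degree. -/
theorem transfer {W : Type} [Fintype W] [Nonempty W] (H : SimpleGraph W) (hH : H.CliqueFree 3)
    {lam : ℝ} (hl : 0 < lam) (d : ℕ) {b : ℝ} (hb : ratio H lam < b) :
    ∃ (V : Type) (_ : Fintype V) (G : SimpleGraph V),
      G.CliqueFree 3 ∧ d ≤ G.minDegree ∧ ratio G lam < b := by
  have h1 := (tendsto_bound H d hl).eventually_lt_const hb
  obtain ⟨N, hN1, hN2⟩ := (h1.and (eventually_ge_atTop (d + 1))).exists
  exact ⟨_, inferInstance, gr H N d, cliqueFree H N d hH, minDeg H N d (by omega) (by omega),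
    (ratio_le H (by omega) hl).trans_lt hN1⟩

/-- The explicit graph on 8 vertices. -/
def e8 : List (ℕ × ℕ) :=
  [(0, 2), (0, 5), (0, 6), (1, 6), (1, 7), (2, 3), (2, 7), (3, 4), (3, 6), (4, 5)]

/-- Its adjacency. -/
def a8 (x y : Fin 8) : Bool := e8.contains (x.val, y.val) || e8.contains (y.val, x.val)

/-- The graph. -/
def H8 : SimpleGraph (Fin 8) where
  Adj x y := a8 x y = true
  symm := ⟨by
    intro x y h
    unfold a8 at h ⊢
    rw [Bool.or_comm]
    exact h⟩
  loopless := ⟨by decide⟩

theorem H8_free : H8.CliqueFree 3 := by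
  intro t ht
  rw [SimpleGraph.is3Clique_iff] at ht
  obtain ⟨a, b, c, hab, hac, hbc, -⟩ := ht
  have : ∀ a b c : Fin 8, a8 a b = true → a8 a c = true → ¬ a8 b c = true := by decide
  exact this a b c hab hac hbc

/-- Decidable independence. -/
def i8 (s : Finset (Fin 8)) : Bool := decide (∀ x ∈ s, ∀ y ∈ s, a8 x y = false)

theorem i8_iff (s : Finset (Fin 8)) : i8 s = true ↔ s ∈ ind H8 := by
  rw [mem_ind]
  simp only [i8, decide_eq_true_eq]
  constructor
  · intro h x hx y hy _ hadj
    have h1 := h x hx y hy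
    have h2 : a8 x y = true := hadj
    rw [h1] at h2
    exact Bool.false_ne_true h2
  · intro h x hx y hy
    by_cases hxy : x = y
    · subst hxy
      have h4 : ∀ z : Fin 8, a8 z z = false := by decide
      exact h4 x
    · have := h (Finset.mem_coe.2 hx) (Finset.mem_coe.2 hy) hxy
      have h3 : ¬ a8 x y = true := this
      simpa using h3

theorem ind_H8 : ind H8 = Finset.univ.filter (fun s => i8 s = true) := by
  ext s
  rw [← i8_iff]
  simp

theorem card8 : (Finset.univ.filter (fun s : Finset (Fin 8) => i8 s = true)).card = 39 := by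
  decide +kernel

theorem sum8 : ∑ s ∈ Finset.univ.filter (fun s : Finset (Fin 8) => i8 s = true), s.card = 80 := by
  decide +kernel

theorem max8 : ∀ s ∈ Finset.univ.filter (fun s : Finset (Fin 8) => i8 s = true), s.card ≤ 3 := by
  decide +kernel

theorem indep8 : H8.indepNum ≤ 3 := by
  obtain ⟨s, hs⟩ := H8.exists_isNIndepSet_indepNum
  rw [← hs.card_eq]
  apply max8
  rw [← ind_H8, mem_ind]
  exact hs.isIndepSet

theorem ratio8 : ratio H8 1 ≤ 117 / 80 := by
  rw [ratio_eq]
  have h1 : Z H8 1 = 39 := by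
    unfold Z
    simp only [one_pow]
    rw [Finset.sum_const, ind_H8]
    have h := card8
    rw [show (Finset.univ.filter (fun s : Finset (Fin 8) => i8 s = true)).card = 39 from by
      convert h]
    norm_num
  have h2 : S H8 1 = 80 := by
    unfold S
    simp only [one_pow, mul_one]
    rw [ind_H8]
    have h := sum8
    have h3 : ((∑ s ∈ Finset.univ.filter (fun s : Finset (Fin 8) => i8 s = true), s.card : ℕ) : ℝ)
        = 80 := by
      rw [show (∑ s ∈ Finset.univ.filter (fun s : Finset (Fin 8) => i8 s = true), s.card) = 80 from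
        by convert h]
      norm_num
    push_cast at h3
    exact h3
  have h3 : (H8.indepNum : ℝ) ≤ 3 := by exact_mod_cast indep8
  rw [h1, h2]
  linarith

end Pool.Agent.ISR
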